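import Pool.Agent.AFL.Stmts

/-!
# AND2B, block lemma FLO, row PTL (helper10): the sums of fourth powers
-/

set_option autoImplicit false

open MeasureTheory ProbabilityTheory

open scoped BigOperators Matrix

noncomputable section

namespace Pool.Agent.AFL.H10

open Pool.Agent.LE.QF Pool.Agent.AFJ Pool.Agent.ABY

/-- the arithmetic of the last step -/
private theorem root4 (S L z l w m r k : ℝ) (hL : 0 ≤ L) (hl : 0 < l) (hw : w ≤ l)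
    (hk : 0 < k) (hz0 : 0 ≤ z) (h : S ^ 4 ≤ 16 * L ^ 3 * ((m * r / k) ^ 2 * (m ^ 2 * r / (k ^ 2 * k))))
    (hz : 16 * m ^ 4 * r ^ 3 ≤ z ^ 4 * w * k ^ 5) : S ≤ z * (1 + L / l) * l := by
  have hf : 0 ≤ L / l := div_nonneg hL hl.le
  have hrhs : 0 ≤ z * (1 + L / l) * l := by positivity
  have h1 : 16 * L ^ 3 * ((m * r / k) ^ 2 * (m ^ 2 * r / (k ^ 2 * k))) =
      L ^ 3 * (16 * m ^ 4 * r ^ 3) / k ^ 5 := by
    field_simp
  have h2 : L ^ 3 * (16 * m ^ 4 * r ^ 3) / k ^ 5 ≤ L ^ 3 * (z ^ 4 * w) := by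
    rw [div_le_iff₀ (by positivity)]
    calc L ^ 3 * (16 * m ^ 4 * r ^ 3) ≤ L ^ 3 * (z ^ 4 * w * k ^ 5) :=
          mul_le_mul_of_nonneg_left hz (by positivity)
      _ = L ^ 3 * (z ^ 4 * w) * k ^ 5 := by ring
  have h3 : L ^ 3 * (z ^ 4 * w) ≤ L ^ 3 * (z ^ 4 * l) :=
    mul_le_mul_of_nonneg_left (mul_le_mul_of_nonneg_left hw (by positivity)) (by positivity)
  have h4 : L ^ 3 * (z ^ 4 * l) = z ^ 4 * (L / l) ^ 3 * l ^ 4 := by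
    field_simp
  have h5 : (L / l) ^ 3 ≤ (1 + L / l) ^ 4 := by
    have ha : (L / l) ^ 3 ≤ (1 + L / l) ^ 3 := pow_le_pow_left₀ hf (by linarith) 3
    have hb : (1 + L / l) ^ 3 ≤ (1 + L / l) ^ 4 := pow_le_pow_right₀ (by linarith) (by norm_num)
    exact ha.trans hb
  have h6 : z ^ 4 * (L / l) ^ 3 * l ^ 4 ≤ (z * (1 + L / l) * l) ^ 4 := by
    calc z ^ 4 * (L / l) ^ 3 * l ^ 4 ≤ z ^ 4 * (1 + L / l) ^ 4 * l ^ 4 :=
          mul_le_mul_of_nonneg_right (mul_le_mul_of_nonneg_left h5 (by positivity)) (by positivity)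
      _ = (z * (1 + L / l) * l) ^ 4 := by ring
  have h7 : S ^ 4 ≤ (z * (1 + L / l) * l) ^ 4 := by
    rw [h1] at h
    exact h.trans (h2.trans (h3.trans (h4.le.trans h6)))
  by_contra hlt
  rw [not_le] at hlt
  exact absurd h7 (not_le.mpr (pow_lt_pow_left₀ hlt hrhs (by norm_num)))

theorem ptl : PtlStmt := by
  intro hjal hbkj henb hlaj hltl heub hpta hkup X _ _ F c₀ C₀ q hok hpt hbj hnet hnet0 x hx
  obtain ⟨hκ0, hκ1, hr1, hc0, hc1, hC1, hN, hδ0, hL0, hω0, hω1, hε0, hε1, hs1, hs2, hrest⟩ := hok.num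
  obtain ⟨p1, p2, p3, p4, p5, p6, p7, p8, -⟩ := hpta heub X F c₀ C₀ q hok hpt hnet hnet0
  have hSK := hkup heub hpta X F c₀ C₀ q hok hpt hnet hnet0
  obtain ⟨g', l', hj, hl', hg'⟩ := hlaj hjal hbkj X F.b F.R q F.Gt F.k (F.Gt q) (F.k q.1) F.mb x hbj
  have hbR : F.b ⊆ F.R := fun y hy => Finset.mem_inter.mpr
    ⟨hok.hb.2.1 (hok.hb.1 hy), hok.hQ.2.1 (hok.hQ.1 hy)⟩
  have hRQ : F.R ⊆ F.Q := Finset.inter_subset_right
  have hRRg : F.R ⊆ F.Rg := Finset.inter_subset_left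
  have hxQ : x ∈ F.Q := hok.hQ.2.1 hx
  have hbA : F.b ⊆ F.A := fun y hy => hok.hb.2.2 (hok.hb.2.1 (hok.hb.1 hy))
  have hμs : 0 ≤ F.μs := by
    unfold Fl.μs
    positivity
  have hKn : ∀ a c, 0 ≤ KK (F.Gt q) a c := fun a c => sq_nonneg _
  -- the Ward identity
  have hward : ∀ y, ∑ c, F.k q.1 c * KK (F.Gt q) y c = (F.Gt q y y).im := by
    intro y
    have h1 := (heub X (F.Gt q) (F.k q.1) F.A F.b (fun _ => 0) hnet hbA).2.2.2.2.2 y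
    rw [← h1]
    unfold rho
    exact (Finset.sum_add_sum_compl F.A _).symm
  have hsub : ∀ (T : Finset X) y, y ∈ F.Q → ∑ c ∈ T, F.k q.1 c * KK (F.Gt q) y c ≤ F.r := by
    intro T y hy
    have h1 : ∑ c ∈ T, F.k q.1 c * KK (F.Gt q) y c ≤ ∑ c, F.k q.1 c * KK (F.Gt q) y c :=
      Finset.sum_le_sum_of_subset_of_nonneg (Finset.subset_univ T)
        (fun c _ _ => mul_nonneg (hnet.hκ c).le (hKn y c))
    rw [hward y] at h1
    exact h1.trans (p8 y hy).1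
  have hkR : ∀ c ∈ F.R, F.κv ≤ F.k q.1 c := fun c hc => p1 c (hRRg hc)
  have hkb : ∀ c ∈ F.b, F.κv ≤ F.k q.1 c := fun c hc => hkR c (hbR hc)
  have hS0 : 0 ≤ C₀ ^ 2 * F.s2 := mul_nonneg (sq_nonneg _) hs2
  have hT3 := hltl X (F.Gt q) (F.k q.1) F.b F.R x F.κv (F.aK C₀) F.r (C₀ ^ 2 * F.s2) hnet hbR hκ0
    hkR (hsub F.R x hxQ) hS0 hSK
  obtain ⟨-, -, -, e4, e5, -⟩ := henb X (F.Gt q) (F.k q.1) (mub (F.Gt q) F.mb F.b) F.b F.R F.Q F.κv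
    F.κv F.μs F.r hnet hκ0 hκ0 hμs (by linarith) hRQ hkb hkR (fun c _ => p7 c)
    (fun c hc => by simp [mub, hc]) (fun y hy => hsub F.b y hy)
  have hΛ : 0 ≤ LaR (F.Gt q) F.R x := Finset.sum_nonneg (fun y _ => sq_nonneg _)
  have hΛ0 : 0 ≤ LaR F.G0 F.R x := Finset.sum_nonneg (fun y _ => sq_nonneg _)
  have hwL : 0 < F.ω * F.L := mul_pos hω0 hL0
  set l : ℝ := LaR F.G0 F.R x + F.ω * F.L with hl
  have hl0 : 0 < l := by linarith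
  have hwl : F.ω * F.L ≤ l := by linarith
  set Λ : ℝ := LaR (F.Gt q) F.R x with hΛd
  set T3 : ℝ := ∑ y ∈ F.R, ∑ c ∈ F.b, KK (F.Gt q) x y * KK (F.Gt q) x c * KK (F.Gt q) c y with hT3d
  set S1 : ℝ := ∑ y ∈ F.R, KK (F.Gt q) x y * EK (F.Gt q) (mub (F.Gt q) F.mb F.b) x y with hS1d
  have hS1 : S1 ≤ F.z * (1 + Λ / l) * l := by
    refine root4 S1 Λ F.z l (F.ω * F.L) F.μs F.r F.κv hΛ hl0 hwl hκ0 hok.hz.1 ?_ hok.hz.2
    exact (e5 x).trans (mul_le_mul_of_nonneg_left (e4 x hxQ) (by positivity))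
  have hT3l : T3 / l ≤ F.aK C₀ * (Λ / l) + F.sg C₀ := by
    have h1 : T3 / l ≤ (F.aK C₀ * Λ + C₀ ^ 2 * F.s2 * (F.r / F.κv) ^ 2) / l :=
      div_le_div_of_nonneg_right hT3 hl0.le
    have h2 : (F.aK C₀ * Λ + C₀ ^ 2 * F.s2 * (F.r / F.κv) ^ 2) / l =
        F.aK C₀ * (Λ / l) + C₀ ^ 2 * F.s2 * (F.r / F.κv) ^ 2 / l := by
      rw [add_div, mul_div_assoc]
    have h3 : C₀ ^ 2 * F.s2 * (F.r / F.κv) ^ 2 / l ≤ F.sg C₀ := by
      unfold Fl.sg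
      exact div_le_div_of_nonneg_left (mul_nonneg hS0 (sq_nonneg _)) hwL hwl
    linarith
  have hf : 0 ≤ Λ / l := div_nonneg hΛ hl0.le
  -- the jet, divided by `l`
  have hj2 := ((hjal F.b ℝ q).2.2.1 _ _ _ _ _ _ _ _ hj ((hjal F.b ℝ q).1 l⁻¹)).2.2
  refine ⟨fun c => g' c * l⁻¹, l' * l⁻¹, ?_, ?_, ?_⟩
  · have h1 : (fun r => LaR (F.Gt r) F.R x / l) = fun r => LaR (F.Gt r) F.R x * l⁻¹ := by
      funext r
      rw [div_eq_mul_inv]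
    rw [h1, div_eq_mul_inv]
    have h2 : (fun c => Λ * (0 : ℝ) + g' c * l⁻¹) = fun c => g' c * l⁻¹ := by
      funext c
      ring
    have h3 : Λ * (0 : ℝ) + l' * l⁻¹ + ∑ c, g' c * 0 = l' * l⁻¹ := by
      simp
    rw [← h2, ← h3]
    exact hj2
  · have h1 : l' * l⁻¹ ≤ (6 * T3 + 2 * S1) * l⁻¹ :=
      mul_le_mul_of_nonneg_right hl' (inv_pos.mpr hl0).le
    have h2 : (6 * T3 + 2 * S1) * l⁻¹ = 6 * (T3 / l) + 2 * (S1 / l) := by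
      rw [div_eq_mul_inv, div_eq_mul_inv]
      ring
    have h3 : S1 / l ≤ F.z * (1 + Λ / l) := by
      rw [div_le_iff₀ hl0]
      exact hS1
    nlinarith
  · have h1 : ∑ c, (g' c * l⁻¹) ^ 2 = (∑ c, g' c ^ 2) * (l⁻¹) ^ 2 := by
      rw [Finset.sum_mul]
      exact Finset.sum_congr rfl (fun c _ => by ring)
    rw [h1]
    calc (∑ c, g' c ^ 2) * (l⁻¹) ^ 2 ≤ (16 * Λ * T3) * (l⁻¹) ^ 2 :=
          mul_le_mul_of_nonneg_right hg' (sq_nonneg _)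
      _ = 16 * (Λ / l) * (T3 / l) := by
          rw [div_eq_mul_inv, div_eq_mul_inv]
          ring
      _ ≤ 16 * (Λ / l) * (F.aK C₀ * (Λ / l) + F.sg C₀) :=
          mul_le_mul_of_nonneg_left hT3l (by positivity)

end Pool.Agent.AFL.H10
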